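import Mathlib
import Pool.Agent.N312.BdExt

set_option autoImplicit false

/-!
# MP_b3b95b_an: bounded extensions of the associated functionals with `[x_n] + [f_n]_⊥` dense

Affirmative answer to Q1, with the bound `(2 + ε) sup ‖φ_n‖` for the extensions.
-/

namespace Pool.Agent.Results.MP_b3b95b_an.BoundedDenseExtension

/-- The closed linear span `[x_n]` of a sequence. -/
def closedSpan (𝕜 : Type*) {E : Type*} [RCLike 𝕜] [NormedAddCommGroup E] [NormedSpace 𝕜 E]
    (x : ℕ → E) : Submodule 𝕜 E :=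
  (Submodule.span 𝕜 (Set.range x)).topologicalClosure

/-- Let `x` be a minimal sequence in a separable Banach space `E` over `ℝ` or `ℂ`, with associated
functionals `φ n` in the dual of the closed linear span `[x_n]`, and suppose that `‖φ n‖ ≤ D` for
all `n`. Then for every `ε > 0` there are extensions `f n` of the `φ n` to `E` with
`‖f n‖ ≤ (2 + ε) D` for all `n` such that `[x_n] + [f_n]_⊥` is dense in `E`. -/
theorem result (𝕜 : Type*) [RCLike 𝕜] (E : Type*) [NormedAddCommGroup E] [NormedSpace 𝕜 E]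
    [CompleteSpace E] [TopologicalSpace.SeparableSpace E] (x : ℕ → E)
    (φ : ℕ → (closedSpan 𝕜 x →L[𝕜] 𝕜))
    (hφ : ∀ (i j : ℕ) (h : x j ∈ closedSpan 𝕜 x), φ i ⟨x j, h⟩ = if i = j then 1 else 0)
    (D : ℝ) (hD : ∀ n, ‖φ n‖ ≤ D) (ε : ℝ) (hε : 0 < ε) :
    ∃ f : ℕ → (E →L[𝕜] 𝕜),
      (∀ (n : ℕ) (v : closedSpan 𝕜 x), f n (v : E) = φ n v) ∧
      (∀ n, ‖f n‖ ≤ (2 + ε) * D) ∧
      Dense {v : E | ∃ g ∈ closedSpan 𝕜 x, ∃ y : E, (∀ n, f n y = 0) ∧ v = g + y} :=
  Pool.Agent.N312.BdExt.main x φ (fun i j => hφ i j _) hD hε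

end Pool.Agent.Results.MP_b3b95b_an.BoundedDenseExtension
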